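import Pool.Agent.BC.Stmts
import Pool.Agent.Helper20_BC.Hhb

set_option autoImplicit false

/-! HPE: the oscillation persists. -/

open Finset

noncomputable section

namespace Pool.Agent.BC.H29

open Pool.Agent.BC.H20 (av1_mono av1_const av1_nonneg)

theorem av1_lin (m : ℕ) (g : ℤ → ℝ) (a b c : ℝ) (j : ℤ) :
    av1 m (fun k => a * g k ^ 2 + b * g k + c) j =
      a * av1 m (fun k => g k ^ 2) j + b * av1 m g j + c := by
  have hc := av1_const m c j
  unfold av1 at *
  simp only [smul_eq_mul] at *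
  rw [Finset.sum_add_distrib, Finset.sum_add_distrib, ← Finset.mul_sum, ← Finset.mul_sum, mul_add,
    mul_add, hc]
  ring

theorem hpe : HpeStmt := by
  intro X _ _ x hx n m j κ θ hθ hst
  obtain ⟨hb, hsup, -⟩ := Pool.Agent.BC.H20.hhb X x hx
  obtain ⟨w, hw⟩ : ∃ w : ℤ → ℝ, w = fun k => 1 - hh x (n + m) k := ⟨_, rfl⟩
  obtain ⟨w₀, hw₀⟩ : ∃ w₀ : ℝ, w₀ = 1 - hh x n j := ⟨_, rfl⟩
  have h0 : 0 ≤ w₀ := by
    have := (hb n j).2
    linarith
  have h1 : av1 m (fun k => w k ^ 2) j ≤ w₀ ^ 2 + κ := by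
    have := hst m
    rw [hw, hw₀]
    exact this
  have h2 : w₀ ≤ av1 m w j := by
    have h3 := hsup n m j
    have h4 : av1 m w j = 1 - av1 m (hh x (n + m)) j := by
      have h5 := av1_lin m (hh x (n + m)) 0 (-1) 1 j
      rw [hw]
      have h6 : (fun k => (0 : ℝ) * hh x (n + m) k ^ 2 + -1 * hh x (n + m) k + 1) =
          fun k => 1 - hh x (n + m) k := by
        funext k
        ring
      rw [h6] at h5
      rw [h5]
      ring
    linarith
  have h3 : av1 m (fun k => (w k - w₀) ^ 2) j ≤ κ := by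
    have h5 := av1_lin m w 1 (-(2 * w₀)) (w₀ ^ 2) j
    have h6 : (fun k => (1 : ℝ) * w k ^ 2 + -(2 * w₀) * w k + w₀ ^ 2) =
        fun k => (w k - w₀) ^ 2 := by
      funext k
      ring
    rw [h6] at h5
    rw [h5]
    nlinarith [mul_le_mul_of_nonneg_left h2 h0]
  have h4 : bad1 m (fun d => hh x n j - θ ≤ hh x (n + m) d) j ≤
      av1 m (fun k => 0 * (fun d => (w d - w₀) ^ 2) k ^ 2 +
        (1 / θ ^ 2) * (fun d => (w d - w₀) ^ 2) k + 0) j := by
    unfold bad1
    apply av1_mono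
    intro k
    simp only
    split_ifs with hk
    · positivity
    · have h7 : θ ≤ w k - w₀ := by
        rw [hw, hw₀]
        simp only
        rw [not_le] at hk
        linarith
      have h8 : θ ^ 2 ≤ (w k - w₀) ^ 2 := pow_le_pow_left₀ hθ.le h7 2
      have h9 : 0 < θ ^ 2 := by positivity
      rw [zero_mul, zero_add, add_zero, one_div, ← div_eq_inv_mul, le_div_iff₀ h9, one_mul]
      exact h8
  refine h4.trans ?_
  rw [av1_lin m (fun d => (w d - w₀) ^ 2) 0 (1 / θ ^ 2) 0 j, zero_mul, zero_add, add_zero,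
    one_div, ← div_eq_inv_mul]
  exact div_le_div_of_nonneg_right h3 (by positivity)

end Pool.Agent.BC.H29
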